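import Pool.Agent.Lib.MP_d6da6d_an.Example

namespace Pool.Agent.Results.MP_d6da6d_an.NotExtremizer

open MeasureTheory Pool.Agent.Lib.MP_d6da6d_an

/-- For every real `α > 0` the indicator of `[-1/2, 1/2]` is not an extremizer: there is a real
integrable `u`, not a.e. zero, supported in `[-1/2, 1/2]` and nonzero at each point of that
interval, with `Φ_α(u) < Φ_α(χ)`. -/
theorem result (α : ℝ) (hα : 0 < α) :
    ∃ u : ℝ → ℝ, Integrable u ∧ ¬ u =ᵐ[volume] 0 ∧
      (∀ x ∈ Set.Icc (-1 / 2 : ℝ) (1 / 2), u x ≠ 0) ∧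
      (∀ x ∉ Set.Icc (-1 / 2 : ℝ) (1 / 2), u x = 0) ∧
      Phi α u < Phi α chi :=
  main hα

end Pool.Agent.Results.MP_d6da6d_an.NotExtremizer
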